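import Pool.Agent.Helper65.HF.StA
import Pool.Agent.Helper45.FatHilb

/-!
# Project HF, module PRT: the graded parts of the ideal
-/

namespace Pool.Agent.Helper32.HF

open MvPolynomial Pool.Agent.Helper45 Pool.Agent.Helper65.HF

private theorem lf_hom {F : Type} [Field F] (P : ℕ → ℕ → F) (N i j : ℕ) :
    (lf P N i ^ j).IsHomogeneous j := by
  have h := (linForm_isHomogeneous (fun s : Fin N => P i s)).pow j
  rw [one_mul] at h
  exact h

/-- components of the elements of the ideal -/
private theorem comp_mem {F : Type} [Field F] (P : ℕ → ℕ → F) (j N r c : ℕ)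
    (S : Submodule F (MvPolynomial (Fin N) F))
    (hS : ∀ i, i < r → j ≤ c → ∀ g : MvPolynomial (Fin N) F, g.IsHomogeneous (c - j) →
      g * lf P N i ^ j ∈ S)
    {f : MvPolynomial (Fin N) F} (hf : f ∈ idl P j N r) (hc : f.IsHomogeneous c) : f ∈ S := by
  have key : ∀ g : MvPolynomial (Fin N) F, homogeneousComponent c (g * f) ∈ S := by
    unfold idl at hf
    refine Submodule.span_induction (p := fun f _ =>
      ∀ g : MvPolynomial (Fin N) F, homogeneousComponent c (g * f) ∈ S) ?_ ?_ ?_ ?_ hf
    · rintro _ ⟨i, hi, rfl⟩ g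
      rw [homogeneousComponent_mul_right (lf_hom P N i j)]
      split_ifs with h
      · exact hS i hi h _ (homogeneousComponent_isHomogeneous _ _)
      · exact Submodule.zero_mem _
    · intro g
      rw [mul_zero, map_zero]
      exact Submodule.zero_mem _
    · intro x y _ _ hx hy g
      rw [mul_add, map_add]
      exact Submodule.add_mem _ (hx g) (hy g)
    · intro a x _ hx g
      rw [smul_eq_mul, ← mul_assoc]
      exact hx (g * a)
  have h1 := key 1
  rw [one_mul, homogeneousComponent_of_mem ((mem_homogeneousSubmodule c f).mpr hc),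
    if_pos rfl] at h1
  exact h1

/-- MODULE PRT -/
theorem hPRT : sPRT := by
  intro F _ P j N r c
  constructor
  · intro hjc
    refine le_antisymm ?_ ?_
    · rintro f ⟨hf1, hf2⟩
      refine comp_mem P j N r c _ ?_ hf2 ((mem_homogeneousSubmodule c f).mp hf1)
      intro i hi _ g hg
      have h := Gr.mul_mem_setPart (f := Gr.pw (fun (a : Fin r) (s : Fin N) => P a s) j)
        (S := Finset.univ) (E := c - j) (a := ⟨i, hi⟩) (Finset.mem_univ _) hg
      rw [mul_comm]
      exact h
    · refine le_inf ?_ ?_
      · have h := Gr.setPart_le (f := Gr.pw (fun (a : Fin r) (s : Fin N) => P a s) j) (j := j)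
          (fun a => Gr.pw_isHomogeneous _ j a) Finset.univ (c - j)
        rwa [Nat.sub_add_cancel hjc] at h
      · unfold Gr.setPart
        refine iSup₂_le fun a _ => ?_
        rintro _ ⟨g, -, rfl⟩
        rw [LinearMap.mulLeft_apply]
        have h1 : Gr.pw (fun (a : Fin r) (s : Fin N) => P a s) j a ∈ idl P j N r :=
          Ideal.subset_span ⟨a, a.2, rfl⟩
        exact Ideal.mul_mem_right g _ h1
  · intro hcj
    rw [eq_bot_iff]
    rintro f ⟨hf1, hf2⟩
    refine comp_mem P j N r c ⊥ ?_ hf2 ((mem_homogeneousSubmodule c f).mp hf1)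
    intro i _ h
    omega

end Pool.Agent.Helper32.HF
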